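import Pool.Agent.H71.RW.Defs
import Pool.Agent.H53.RQ.LKa

/-!
MP_1e629d_co: the generating function of the hook words of length `m` over a finite alphabet of
any types is the one row Schur P function.
-/

set_option autoImplicit false

open Finset Pool.Agent.H71.RW

namespace Pool.Agent.H60.RWh

/-- the order of the letters with types (`tp a`: equal letters `a` form an ascent). -/
def Rt (tp : ℕ → Prop) (a b : ℕ) : Prop := a < b ∨ (a = b ∧ tp a)

theorem Rt_sup (tp : ℕ → Prop) : Sup (Rt tp) where
  tr a b c := by
    rintro (h | ⟨rfl, h⟩) (h' | ⟨rfl, h'⟩)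
    · exact Or.inl (h.trans h')
    · exact Or.inl h
    · exact Or.inl h'
    · exact Or.inr ⟨rfl, h⟩
  nt a b c := by
    intro h1 h2 h3
    unfold Rt at h1 h2 h3
    push Not at h1 h2
    rcases h3 with h3 | ⟨rfl, h3⟩
    · omega
    · have : a = b := by omega
      subst this
      exact h1.2 rfl h3

theorem mem_listsOver {β : Type*} (S : Finset β) (k : ℕ) (w : List β) :
    w ∈ listsOver S k ↔ w.length = k ∧ ∀ a ∈ w, a ∈ S := by
  induction k generalizing w with
  | zero => simp [listsOver, List.length_eq_zero_iff]; rintro rfl; simp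
  | succ k ih =>
    simp only [listsOver, mem_image, mem_product, Prod.exists]
    constructor
    · rintro ⟨a, v, ⟨ha, hv⟩, rfl⟩
      rw [ih] at hv
      refine ⟨by simp [hv.1], ?_⟩
      intro b hb
      rcases List.mem_cons.1 hb with rfl | hb
      · exact ha
      · exact hv.2 b hb
    · rintro ⟨hl, hm⟩
      cases w with
      | nil => simp at hl
      | cons a v =>
        refine ⟨a, v, ⟨hm a (by simp), (ih v).2 ⟨by simpa using hl, fun b hb => hm b (by simp [hb])⟩⟩,
          rfl⟩

section Card

variable {α : Type*} {R : α → α → Prop}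

open Classical in
/-- number of splittings of a word into a descending and an ascending part. -/
noncomputable def nsp (R : α → α → Prop) (w : List α) : ℕ :=
  ∑ i ∈ range (w.length + 1), if DL R (w.take i) ∧ AL R (w.drop i) then 1 else 0

theorem DL_cons_cons (h : Sup R) (a b : α) (t : List α) :
    DL R (a :: b :: t) ↔ ¬ R a b ∧ DL R (b :: t) := by
  unfold DL
  simp only [List.pairwise_cons, List.mem_cons, forall_eq_or_imp]
  constructor
  · rintro ⟨⟨h1, _⟩, h2⟩
    exact ⟨h1, h2⟩
  · rintro ⟨h1, h2, h3⟩
    exact ⟨⟨h1, fun c hc => h.nt a b c h1 (h2 c hc)⟩, h2, h3⟩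

theorem AL_cons_cons (h : Sup R) (a b : α) (t : List α) :
    AL R (a :: b :: t) ↔ R a b ∧ AL R (b :: t) := by
  unfold AL
  simp only [List.pairwise_cons, List.mem_cons, forall_eq_or_imp]
  constructor
  · rintro ⟨⟨h1, _⟩, h2⟩
    exact ⟨h1, h2⟩
  · rintro ⟨h1, h2, h3⟩
    exact ⟨⟨h1, fun c hc => h.tr a b c h1 (h2 c hc)⟩, h2, h3⟩

theorem hk_iff_exists (w : List α) :
    Hk R w ↔ ∃ i ∈ range (w.length + 1), DL R (w.take i) ∧ AL R (w.drop i) := by
  constructor
  · rintro ⟨D, A, rfl, hD, hA⟩
    exact ⟨D.length, by simp, by simpa using hD, by simpa using hA⟩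
  · rintro ⟨i, _, hD, hA⟩
    exact ⟨_, _, (List.take_append_drop i w).symm, hD, hA⟩

theorem nsp_eq_two (h : Sup R) (w : List α) (hw : w ≠ []) (hk : Hk R w) : nsp R w = 2 := by
  classical
  induction w with
  | nil => exact absurd rfl hw
  | cons a v ih =>
    cases v with
    | nil =>
      simp [nsp, sum_range_succ, DL, AL]
    | cons b t =>
      by_cases hab : R a b
      · -- ascent at the beginning
        have h2 : ∀ i, ¬ DL R ((a :: b :: t).take (i + 2)) := by
          intro i hi
          simp only [List.take_succ_cons] at hi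
          exact ((DL_cons_cons h a b _).1 hi).1 hab
        have hA : AL R (b :: t) := by
          obtain ⟨i, _, hD, hA⟩ := (hk_iff_exists _).1 hk
          match i, hD, hA with
          | 0, _, hA => exact ((AL_cons_cons h a b t).1 (by simpa using hA)).2
          | 1, _, hA => simpa using hA
          | i + 2, hD, _ => exact absurd hD (h2 i)
        rw [nsp, List.length_cons, sum_range_succ', List.length_cons, sum_range_succ']
        have h0 : ∀ i ∈ range (t.length + 1),
            (if DL R ((a :: b :: t).take (i + 1 + 1)) ∧ AL R ((a :: b :: t).drop (i + 1 + 1))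
              then 1 else 0) = 0 := by
          intro i _
          rw [if_neg]
          exact fun hh => h2 i hh.1
        rw [sum_eq_zero h0]
        rw [if_pos (by refine ⟨by simp [DL], by simpa using hA⟩),
          if_pos ⟨by simp [DL], by simpa using (AL_cons_cons h a b t).2 ⟨hab, hA⟩⟩]
      · have hk' : Hk R (b :: t) := by
          obtain ⟨i, hi, hD, hA⟩ := (hk_iff_exists _).1 hk
          match i, hD, hA with
          | 0, _, hA => exact absurd ((AL_cons_cons h a b t).1 (by simpa using hA)).1 hab
          | i + 1, hD, hA =>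
            refine ⟨(b :: t).take i, (b :: t).drop i, (List.take_append_drop i _).symm, ?_,
              by simpa using hA⟩
            simp only [List.take_succ_cons] at hD
            exact (List.pairwise_cons.1 hD).2
        have hrec := ih (by simp) hk'
        rw [nsp, List.length_cons, sum_range_succ']
        rw [if_neg (by
          rintro ⟨_, hh⟩
          exact hab ((AL_cons_cons h a b t).1 (by simpa using hh)).1), add_zero]
        rw [nsp] at hrec
        rw [← hrec]
        refine sum_congr rfl fun i _ => ?_
        have : (DL R ((a :: b :: t).take (i + 1)) ∧ AL R ((a :: b :: t).drop (i + 1)))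
            ↔ (DL R ((b :: t).take i) ∧ AL R ((b :: t).drop i)) := by
          rw [List.take_succ_cons, List.drop_succ_cons]
          refine and_congr_left fun _ => ?_
          cases i with
          | zero => simp [DL]
          | succ i =>
            rw [List.take_succ_cons]
            rw [DL_cons_cons h]
            exact ⟨fun hh => hh.2, fun hh => ⟨hab, hh⟩⟩
        simp only [this]

end Card

section Sums

variable (x : ℕ → ℝ)

open Classical in
/-- sum over the descending words. -/
noncomputable def dsum (tp : ℕ → Prop) (J : Finset ℕ) (m : ℕ) : ℝ :=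
  ∑ w ∈ (listsOver J m).filter (fun w => DL (Rt tp) w), (w.map x).prod

open Classical in
/-- sum over the ascending words. -/
noncomputable def asum (tp : ℕ → Prop) (J : Finset ℕ) (m : ℕ) : ℝ :=
  ∑ w ∈ (listsOver J m).filter (fun w => AL (Rt tp) w), (w.map x).prod

open Classical in
/-- sum over the hook words. -/
noncomputable def hsum (tp : ℕ → Prop) (J : Finset ℕ) (m : ℕ) : ℝ :=
  ∑ w ∈ (listsOver J m).filter (fun w => Hk (Rt tp) w), (w.map x).prod

theorem rv_iff (tp : ℕ → Prop) (a b : ℕ) : Rt tp a b ↔ ¬ Rt (fun i => ¬ tp i) b a := by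
  unfold Rt
  constructor
  · rintro (h | ⟨rfl, h⟩) (h' | ⟨h', h''⟩)
    · omega
    · omega
    · omega
    · exact h'' h
  · intro h
    push Not at h
    rcases Nat.lt_trichotomy a b with hh | hh | hh
    · exact Or.inl hh
    · exact Or.inr ⟨hh, by simpa [hh] using h.2 hh.symm⟩
    · omega

theorem asum_eq (tp : ℕ → Prop) (J : Finset ℕ) (m : ℕ) :
    asum x tp J m = dsum x (fun i => ¬ tp i) J m := by
  classical
  unfold asum dsum
  refine sum_nbij' List.reverse List.reverse ?_ ?_ ?_ ?_ ?_
  · intro w hw
    rw [mem_filter, mem_listsOver] at hw ⊢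
    refine ⟨by simpa using hw.1, ?_⟩
    unfold DL
    rw [List.pairwise_reverse]
    refine hw.2.imp ?_
    intro a b hab
    exact (rv_iff tp a b).1 hab
  · intro w hw
    rw [mem_filter, mem_listsOver] at hw ⊢
    refine ⟨by simpa using hw.1, ?_⟩
    unfold AL
    rw [List.pairwise_reverse]
    refine hw.2.imp ?_
    intro a b hab
    exact (rv_iff tp b a).2 hab
  · intro w _; simp
  · intro w _; simp
  · intro w _
    rw [List.map_reverse]
    exact ((List.reverse_perm _).prod_eq).symm

theorem dsum_zero (tp : ℕ → Prop) (J : Finset ℕ) : dsum x tp J 0 = 1 := by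
  classical
  unfold dsum
  have : (listsOver J 0).filter (fun w => DL (Rt tp) w) = {[]} := by
    ext w
    simp only [mem_filter, mem_listsOver, mem_singleton, List.length_eq_zero_iff]
    constructor
    · rintro ⟨⟨rfl, _⟩, _⟩; rfl
    · rintro rfl; simp [DL]
  rw [this]
  simp

theorem dsum_empty (tp : ℕ → Prop) (m : ℕ) : dsum x tp ∅ (m + 1) = 0 := by
  classical
  unfold dsum
  have : (listsOver (∅ : Finset ℕ) (m + 1)).filter (fun w => DL (Rt tp) w) = ∅ := by
    ext w
    simp only [mem_filter, mem_listsOver, notMem_empty, iff_false, not_and]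
    rintro ⟨h1, h2⟩
    cases w with
    | nil => simp at h1
    | cons a v => exact absurd (h2 a (by simp)) (by simp)
  rw [this]
  simp

open Classical in
theorem dsum_insert (tp : ℕ → Prop) (J : Finset ℕ) (j : ℕ) (hj : ∀ i ∈ J, i < j) (m : ℕ) :
    dsum x tp (insert j J) (m + 1) = dsum x tp J (m + 1)
      + x j * (if tp j then dsum x tp J m else dsum x tp (insert j J) m) := by
  set J2 : Finset ℕ := if tp j then J else insert j J with hJ2
  have hJ2s : (if tp j then dsum x tp J m else dsum x tp (insert j J) m) = dsum x tp J2 m := by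
    rw [hJ2]; split_ifs <;> rfl
  have hjJ : j ∉ J := fun h => lt_irrefl _ (hj j h)
  have hset : (listsOver (insert j J) (m + 1)).filter (fun w => DL (Rt tp) w)
      = (listsOver J (m + 1)).filter (fun w => DL (Rt tp) w)
        ∪ ((listsOver J2 m).filter (fun w => DL (Rt tp) w)).image (List.cons j) := by
    ext w
    simp only [mem_union, mem_filter, mem_listsOver, mem_image]
    constructor
    · rintro ⟨⟨hl, hm⟩, hd⟩
      cases w with
      | nil => simp at hl
      | cons a v =>
        have hd' := List.pairwise_cons.1 hd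
        by_cases haj : a = j
        · subst haj
          right
          refine ⟨v, ⟨⟨by simpa using hl, ?_⟩, hd'.2⟩, rfl⟩
          intro b hb
          have h1 := hd'.1 b hb
          have h2 := hm b (by simp [hb])
          rw [hJ2]
          split_ifs with ht
          · rcases mem_insert.1 h2 with rfl | h2
            · exact absurd (Or.inr ⟨rfl, ht⟩) h1
            · exact h2
          · exact h2
        · left
          refine ⟨⟨hl, ?_⟩, hd⟩
          have haJ : a ∈ J := by
            rcases mem_insert.1 (hm a (by simp)) with h | h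
            · exact absurd h haj
            · exact h
          intro b hb
          rcases mem_insert.1 (hm b hb) with rfl | h
          · rcases List.mem_cons.1 hb with h | h
            · exact absurd h.symm haj
            · exact absurd (Or.inl (hj a haJ)) (hd'.1 _ h)
          · exact h
    · rintro (⟨⟨hl, hm⟩, hd⟩ | ⟨v, ⟨⟨hl, hm⟩, hd⟩, rfl⟩)
      · exact ⟨⟨hl, fun b hb => mem_insert_of_mem (hm b hb)⟩, hd⟩
      · refine ⟨⟨by simp [hl], ?_⟩, ?_⟩
        · intro b hb
          rcases List.mem_cons.1 hb with rfl | hb
          · exact mem_insert_self _ _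
          · have := hm b hb
            rw [hJ2] at this
            split_ifs at this
            · exact mem_insert_of_mem this
            · exact this
        · refine List.pairwise_cons.2 ⟨?_, hd⟩
          intro b hb hR
          have hbm := hm b hb
          rw [hJ2] at hbm
          split_ifs at hbm with ht
          · have := hj b hbm
            rcases hR with h | ⟨h, _⟩ <;> omega
          · rcases mem_insert.1 hbm with rfl | h
            · rcases hR with h | ⟨_, h⟩
              · omega
              · exact ht h
            · have := hj b h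
              rcases hR with h | ⟨h, _⟩ <;> omega
  have hdis : Disjoint ((listsOver J (m + 1)).filter (fun w => DL (Rt tp) w))
      (((listsOver J2 m).filter (fun w => DL (Rt tp) w)).image (List.cons j)) := by
    rw [disjoint_left]
    intro w hw hw'
    rw [mem_filter, mem_listsOver] at hw
    obtain ⟨v, _, rfl⟩ := mem_image.1 hw'
    exact hjJ (hw.1.2 j (by simp))
  rw [hJ2s]
  unfold dsum
  rw [hset, sum_union hdis, sum_image (by
    intro a _ b _ hab
    exact (List.cons.inj hab).2)]
  congr 1
  rw [mul_sum]
  exact sum_congr rfl fun w _ => by simp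

end Sums

section Split

variable (x : ℕ → ℝ)

theorem split_sum (tp : ℕ → Prop) (J : Finset ℕ) (m : ℕ) (hm : m ≠ 0) :
    ∑ p ∈ antidiagonal m, dsum x tp J p.1 * asum x tp J p.2 = 2 * hsum x tp J m := by
  classical
  have h1 : ∀ p ∈ antidiagonal m, dsum x tp J p.1 * asum x tp J p.2
      = ∑ w ∈ (listsOver J m).filter (fun w => Hk (Rt tp) w),
          if DL (Rt tp) (w.take p.1) ∧ AL (Rt tp) (w.drop p.1) then (w.map x).prod else 0 := by
    intro p hp
    rw [HasAntidiagonal.mem_antidiagonal] at hp
    rw [← sum_filter]
    unfold dsum asum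
    rw [sum_mul_sum, ← sum_product']
    refine sum_nbij' (fun q => q.1 ++ q.2) (fun w => (w.take p.1, w.drop p.1)) ?_ ?_ ?_ ?_ ?_
    · rintro ⟨D, A⟩ hq
      rw [mem_product, mem_filter, mem_filter, mem_listsOver, mem_listsOver] at hq
      obtain ⟨⟨⟨hDl, hDm⟩, hD⟩, ⟨hAl, hAm⟩, hA⟩ := hq
      simp only at hDl hDm hD hAl hAm hA
      rw [mem_filter, mem_filter, mem_listsOver]
      refine ⟨⟨⟨by simp [hDl, hAl, hp], ?_⟩, D, A, rfl, hD, hA⟩, ?_, ?_⟩
      · intro a ha
        rcases List.mem_append.1 ha with h | h
        · exact hDm a h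
        · exact hAm a h
      · simp only
        rw [← hDl, List.take_left']
        · exact hD
        · rfl
      · simp only
        rw [← hDl, List.drop_left']
        · exact hA
        · rfl
    · intro w hw
      rw [mem_filter, mem_filter, mem_listsOver] at hw
      obtain ⟨⟨⟨hl, hmem⟩, _⟩, hD, hA⟩ := hw
      rw [mem_product, mem_filter, mem_filter, mem_listsOver, mem_listsOver]
      refine ⟨⟨⟨?_, fun a ha => hmem a (List.mem_of_mem_take ha)⟩, hD⟩,
        ⟨?_, fun a ha => hmem a (List.mem_of_mem_drop ha)⟩, hA⟩
      · simp only [List.length_take]; omega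
      · simp only [List.length_drop]; omega
    · rintro ⟨D, A⟩ hq
      rw [mem_product, mem_filter, mem_filter, mem_listsOver, mem_listsOver] at hq
      have hDl := hq.1.1.1
      simp only at hDl
      simp only [Prod.mk.injEq]
      rw [← hDl]
      exact ⟨List.take_left' rfl, List.drop_left' rfl⟩
    · intro w _
      exact List.take_append_drop _ _
    · rintro ⟨D, A⟩ _
      simp
  rw [sum_congr rfl h1, sum_comm, hsum, mul_sum]
  refine sum_congr rfl fun w hw => ?_
  rw [mem_filter, mem_listsOver] at hw
  obtain ⟨⟨hl, _⟩, hk⟩ := hw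
  have hw0 : w ≠ [] := by
    rintro rfl
    simp at hl
    exact hm hl.symm
  have hn := nsp_eq_two (Rt_sup tp) w hw0 hk
  rw [Nat.sum_antidiagonal_eq_sum_range_succ
    (f := fun i _ => if DL (Rt tp) (w.take i) ∧ AL (Rt tp) (w.drop i) then (w.map x).prod else 0)]
  rw [nsp, hl] at hn
  have h2 : ∑ i ∈ range (m + 1), (if DL (Rt tp) (w.take i) ∧ AL (Rt tp) (w.drop i)
      then (w.map x).prod else 0) = ((∑ i ∈ range (m + 1),
        if DL (Rt tp) (w.take i) ∧ AL (Rt tp) (w.drop i) then 1 else 0 : ℕ) : ℝ)
        * (w.map x).prod := by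
    push_cast
    rw [sum_mul]
    refine sum_congr rfl fun i _ => ?_
    split_ifs <;> simp
  rw [Nat.succ_eq_add_one, h2, hn]
  norm_num

end Split

section Series

open PowerSeries

variable (x : ℕ → ℝ)

/-- the power series of the descending words. -/
noncomputable def dser (tp : ℕ → Prop) (J : Finset ℕ) : PowerSeries ℝ := mk (dsum x tp J)

/-- the power series `1 + 2 ∑ h_m X^m`. -/
noncomputable def gser (J : Finset ℕ) : PowerSeries ℝ :=
  mk fun m => if m = 0 then 1 else 2 * Pool.H53.RQ.hh x m J

theorem dser_plus (tp : ℕ → Prop) (J : Finset ℕ) (j : ℕ) (hj : ∀ i ∈ J, i < j) (h : tp j) :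
    dser x tp (insert j J) = (1 + C (x j) * X) * dser x tp J := by
  ext m
  cases m with
  | zero =>
    simp only [dser, coeff_mk, dsum_zero, add_mul, one_mul, map_add]
    rw [mul_assoc, coeff_C_mul, coeff_zero_X_mul]
    simp
  | succ m =>
    rw [add_mul, one_mul, map_add, mul_assoc, coeff_C_mul, coeff_succ_X_mul]
    simp only [dser, coeff_mk]
    rw [dsum_insert x tp J j hj m, if_pos h]

theorem dser_minus (tp : ℕ → Prop) (J : Finset ℕ) (j : ℕ) (hj : ∀ i ∈ J, i < j) (h : ¬ tp j) :
    (1 - C (x j) * X) * dser x tp (insert j J) = dser x tp J := by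
  ext m
  cases m with
  | zero =>
    simp only [dser, coeff_mk, dsum_zero, sub_mul, one_mul, map_sub]
    rw [mul_assoc, coeff_C_mul, coeff_zero_X_mul]
    simp
  | succ m =>
    rw [sub_mul, one_mul, map_sub, mul_assoc, coeff_C_mul, coeff_succ_X_mul]
    simp only [dser, coeff_mk]
    rw [dsum_insert x tp J j hj m, if_neg h]
    ring

theorem gser_insert (J : Finset ℕ) (j : ℕ) (hj : j ∉ J) (hg : Pool.H53.RQ.Good x (insert j J)) :
    (1 - C (x j) * X) * gser x (insert j J) = (1 + C (x j) * X) * gser x J := by
  have key : ∀ m, 0 < m → Pool.H53.RQ.hh x m J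
      = Pool.H53.RQ.hh x m (insert j J)
        + 2 * (∑ i ∈ Ico 1 m, (-x j) ^ i * Pool.H53.RQ.hh x (m - i) (insert j J))
        + (-x j) ^ m := by
    intro m hm
    have := Pool.H53.RQ.hh_erase x (insert j J) hg j (mem_insert_self _ _) m hm
    rwa [erase_insert hj] at this
  ext m
  cases m with
  | zero =>
    rw [sub_mul, add_mul, one_mul, one_mul, map_sub, map_add, mul_assoc, mul_assoc, coeff_C_mul,
      coeff_C_mul, coeff_zero_X_mul, coeff_zero_X_mul]
    simp [gser]
  | succ m =>
    rw [sub_mul, add_mul, one_mul, one_mul, map_sub, map_add, mul_assoc, mul_assoc, coeff_C_mul,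
      coeff_C_mul, coeff_succ_X_mul, coeff_succ_X_mul]
    simp only [gser, coeff_mk, Nat.succ_ne_zero, if_false]
    cases m with
    | zero =>
      rw [key 1 one_pos]
      simp
      ring
    | succ m =>
      simp only [Nat.succ_ne_zero, if_false]
      rw [key (m + 1 + 1) (by omega), key (m + 1) (by omega)]
      have hs : ∑ i ∈ Ico 1 (m + 1 + 1), (-x j) ^ i * Pool.H53.RQ.hh x (m + 1 + 1 - i) (insert j J)
          = (-x j) * Pool.H53.RQ.hh x (m + 1) (insert j J)
            + (-x j) * ∑ i ∈ Ico 1 (m + 1), (-x j) ^ i
              * Pool.H53.RQ.hh x (m + 1 - i) (insert j J) := by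
        rw [sum_eq_sum_Ico_succ_bot (by omega), mul_sum]
        congr 1
        · rw [pow_one]; congr 2
        · rw [← sum_Ico_add' (fun i => (-x j) ^ i * Pool.H53.RQ.hh x (m + 1 + 1 - i) (insert j J))
            1 (m + 1) 1]
          refine sum_congr rfl fun i _ => ?_
          rw [show m + 1 + 1 - (i + 1) = m + 1 - i by omega, pow_succ]
          ring
      rw [hs]
      ring

theorem prod_ser (tp : ℕ → Prop) (J : Finset ℕ) (hg : Pool.H53.RQ.Good x J) :
    dser x tp J * dser x (fun i => ¬ tp i) J = gser x J := by
  classical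
  induction J using Finset.induction_on_max with
  | empty =>
    have h1 : ∀ tp : ℕ → Prop, dser x tp ∅ = 1 := by
      intro tp
      ext m
      cases m with
      | zero => simp [dser, dsum_zero]
      | succ m => simp [dser, dsum_empty, coeff_one]
    rw [h1, h1, one_mul]
    ext m
    cases m with
    | zero => simp [gser]
    | succ m => simp [gser, coeff_one, Pool.H53.RQ.hh]
  | insert j J hj ih =>
    have hjJ : j ∉ J := fun h => lt_irrefl _ (hj j h)
    have hg' : Pool.H53.RQ.Good x J :=
      ⟨fun i hi => hg.1 i (mem_insert_of_mem hi), hg.2.mono fun i hi => mem_insert_of_mem hi⟩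
    have ih' := ih hg'
    have hne : (1 - C (x j) * X : PowerSeries ℝ) ≠ 0 := by
      intro h0
      have := congrArg (coeff 0) h0
      rw [map_sub, coeff_C_mul, coeff_zero_X] at this
      simp at this
    refine mul_left_cancel₀ hne ?_
    rw [gser_insert x J j hjJ hg, ← ih']
    by_cases h : tp j
    · rw [dser_plus x tp J j hj h,
        ← dser_minus x (fun i => ¬ tp i) J j hj (not_not.2 h)]
      ring
    · rw [dser_plus x (fun i => ¬ tp i) J j hj h, ← dser_minus x tp J j hj h]
      ring

/-- The hook words of length `m ≥ 1` over `J`, any types: their generating function is the one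
row Schur P function. -/
theorem hgf (tp : ℕ → Prop) (J : Finset ℕ) (hg : Pool.H53.RQ.Good x J) (m : ℕ) (hm : m ≠ 0) :
    hsum x tp J m = Pool.H53.RQ.P x [m] J := by
  have h1 := split_sum x tp J m hm
  have h2 := congrArg (coeff m) (prod_ser x tp J hg)
  rw [coeff_mul] at h2
  simp only [dser, coeff_mk, gser, if_neg hm] at h2
  simp only [← asum_eq] at h2
  rw [h1, Pool.H53.RQ.hh_one_row x hm] at h2
  linarith

end Series

end Pool.Agent.H60.RWh
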